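import Pool.Agent.Y166.PS.Exist

/-!
# Point-separating maps from all coverings of the bidisk minus the real plane

`Omega` is the bidisk minus the real plane, `Ω = Δ² \ ℝ²`. Its fundamental group is the group of
integers. This file proves that for every `n ≥ 1` there is a compact connected complex threefold
`X` such that the connected unramified covering of `Ω` with `n` sheets has an injective holomorphic
map to `X` (the question is about `n = 2`), and that there is a compact connected complex
manifold of dimension four with an injective holomorphic map from the universal covering of `Ω`,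
which has infinitely many sheets. For `n ≥ 2`, and for the universal covering, holomorphic
functions do not separate the points of the covering, and three is the smallest possible dimension
of `X` for `n = 2` by the results that the problem lists as known.

The structure `IsCover D p` says that `D` is a connected complex manifold of dimension two, the map
`p : D → Ω` is a covering, and it is locally biholomorphic as a map to the complex plane
of dimension two.

The manifolds `X` are the quotients of `ℂ ^ 3` (or `ℂ ^ 4`) minus the subspace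
`Im e₀ = Im e₁ = 0`, or rather of its coverings, by groups of affine maps: the coordinates
`e₀, e₁` are multiplied by `(1 + √2) ^ 2` and translated by the numbers `s₁(l), s₁(m)`, and the
coordinate `e₂` is multiplied by `(1 - √2) ^ 2` and translated by `s₂(l) + s₂(m) i`, where `l, m` are
elements of `ℤ[√2]` and `s₁, s₂` are its real embeddings. The angle of the vector
`(Im e₀, Im e₁)` is a coordinate modulo `2 π n` for the coverings with `n` sheets. For the universal
covering this angle is shifted together with a translation by `√2` of the fourth coordinate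
`e₃`, which lives in an elliptic curve, where this translation has infinite order.
-/

set_option autoImplicit false

open scoped Manifold ContDiff
open Set Complex

namespace Pool.Agent.Results.MP_c7085a_an.AllCoverings

open Pool.Agent.Results.MP_c7085a_an.PointSep Pool.Agent.Y166.PS

/-- There is a connected covering of the bidisk minus the real plane with `κ` sheets. -/
def HasCovering (κ : ℕ∞) : Prop :=
  ∃ (D : Type) (_ : TopologicalSpace D) (_ : ChartedSpace (Fin 2 → ℂ) D) (p : D → Omega),
    IsCover D p ∧ ∀ z : Omega, (p ⁻¹' {z}).encard = κ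

/-- There is a compact connected complex manifold `X` of dimension `m` such that the connected
coverings of the bidisk minus the real plane with `κ` sheets have injective holomorphic maps to
`X`. -/
def Separated (m : ℕ) (κ : ℕ∞) : Prop :=
  ∃ (X : Type) (_ : TopologicalSpace X) (_ : ChartedSpace (Fin m → ℂ) X),
    IsManifold 𝓘(ℂ, Fin m → ℂ) ω X ∧ CompactSpace X ∧ T2Space X ∧ ConnectedSpace X ∧
    SecondCountableTopology X ∧
    ∀ (D : Type) [TopologicalSpace D] [ChartedSpace (Fin 2 → ℂ) D] (p : D → Omega),
      IsCover D p → (∀ z : Omega, (p ⁻¹' {z}).encard = κ) →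
      ∃ f : D → X, ContMDiff 𝓘(ℂ, Fin 2 → ℂ) 𝓘(ℂ, Fin m → ℂ) ω f ∧ Function.Injective f

/-- The compact threefold for the coverings with `n` sheets. -/
theorem exists_threefold (n : ℕ) (hn : 0 < n) :
    ∃ (X : Type) (_ : TopologicalSpace X) (_ : ChartedSpace (Fin 3 → ℂ) X),
      IsManifold 𝓘(ℂ, Fin 3 → ℂ) ω X ∧ CompactSpace X ∧ T2Space X ∧ ConnectedSpace X ∧
      SecondCountableTopology X ∧
      ∀ (D : Type) [TopologicalSpace D] [ChartedSpace (Fin 2 → ℂ) D] (p : D → Omega),
        IsCover D p → (∀ z : Omega, (p ⁻¹' {z}).ncard = n) →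
        ∃ f : D → X, ContMDiff 𝓘(ℂ, Fin 2 → ℂ) 𝓘(ℂ, Fin 3 → ℂ) ω f ∧ Function.Injective f := by
  refine ⟨XX n 0 0, inferInstance, XX_charted (N := n) (r := 0) (c := 0) hn,
    XX_manifold (r := 0) (c := 0) hn,
    XX_compact hn, XX_t2 hn, XX_conn, XX_sc hn, ?_⟩
  rintro D _ _ p ⟨h1, h2, h3, h4⟩ hcard
  obtain ⟨g, m, hg, hsurj, heq, hm⟩ := classify h3
  obtain ⟨z⟩ : Nonempty Omega := ⟨pT (Classical.arbitrary T)⟩
  have hmn : m = n := (hm z).symm.trans (hcard z)
  subst hmn
  exact exists_embed hn m (fun k => ⟨(1, Multiplicative.ofAdd (k, fun _ => 0)), rfl,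
    mul_comm _ _, fun i => i.elim0⟩) (fun e _ => ⟨gj e, mul_comm _ _⟩) D p h3 h4 g hg hsurj heq

/-- The compact fourfold for the universal covering. -/
theorem exists_fourfold :
    ∃ (X : Type) (_ : TopologicalSpace X) (_ : ChartedSpace (Fin 4 → ℂ) X),
      IsManifold 𝓘(ℂ, Fin 4 → ℂ) ω X ∧ CompactSpace X ∧ T2Space X ∧ ConnectedSpace X ∧
      SecondCountableTopology X ∧
      ∀ (D : Type) [TopologicalSpace D] [ChartedSpace (Fin 2 → ℂ) D] (p : D → Omega),
        IsCover D p → (∀ z : Omega, (p ⁻¹' {z}).Infinite) →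
        ∃ f : D → X, ContMDiff 𝓘(ℂ, Fin 2 → ℂ) 𝓘(ℂ, Fin 4 → ℂ) ω f ∧ Function.Injective f := by
  refine ⟨XX 1 1 (√2 : ℝ), inferInstance, XX_charted (N := 1) (r := 1) (c := (√2 : ℝ)) one_pos,
    XX_manifold (r := 1) (c := (√2 : ℝ)) one_pos, XX_compact one_pos, XX_t2 one_pos, XX_conn, XX_sc one_pos, ?_⟩
  rintro D _ _ p ⟨h1, h2, h3, h4⟩ hcard
  obtain ⟨g, m, hg, hsurj, heq, hm⟩ := classify h3
  obtain ⟨z⟩ : Nonempty Omega := ⟨pT (Classical.arbitrary T)⟩
  have hmn : m = 0 := (hm z).symm.trans (hcard z).ncard
  subst hmn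
  refine exists_embed one_pos 0 (fun k => ⟨1, rfl, ?_, fun i => ?_⟩) (fun e he => ⟨0, ?_⟩) D p h3 h4
    g hg hsurj heq
  · rw [gj_one]; simp
  · rw [gj_one, gl_one]; simp
  · have h5 := he 0
    have h6 : (gj e : ℝ) * √2 + (((Multiplicative.toAdd e.2).2 0).1 : ℝ) = 0 := by
      have h7 := congrArg Complex.re h5
      simpa [gl] using h7
    have h8 : gj e = 0 := by
      by_contra hne
      have h9 : Irrational ((gj e : ℝ) * √2) := irrational_sqrt_two.intCast_mul hne
      apply h9
      refine ⟨((-((Multiplicative.toAdd e.2).2 0).1 : ℤ) : ℚ), ?_⟩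
      push_cast
      linarith
    rw [h8]
    simp

/-- For every `n ≥ 1` the connected covering of the bidisk minus the real plane with `n` sheets
exists and has an injective holomorphic map to a compact connected complex manifold of dimension
three; the connected covering with infinitely many sheets exists and has an injective holomorphic
map to a compact connected complex manifold of dimension four; all connected coverings belong to
one of these cases. -/
theorem result :
    (∀ n : ℕ, 0 < n → HasCovering n ∧ Separated 3 n) ∧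
    (HasCovering ⊤ ∧ Separated 4 ⊤) ∧
    ∀ (D : Type) [TopologicalSpace D] [ChartedSpace (Fin 2 → ℂ) D] (p : D → Omega),
      IsCover D p → ∃ κ : ℕ∞, κ ≠ 0 ∧ ∀ z : Omega, (p ⁻¹' {z}).encard = κ := by
  have key : ∀ (D : Type) (p : D → Omega) (n : ℕ), 0 < n →
      ((∀ z : Omega, (p ⁻¹' {z}).encard = n) ↔ ∀ z : Omega, (p ⁻¹' {z}).ncard = n) := by
    intro D p n hn
    refine forall_congr' fun z => ⟨fun h => ?_, fun h => ?_⟩
    · rw [Set.ncard_def, h]; rfl
    · have hfin : (p ⁻¹' {z}).Finite := Set.finite_of_ncard_pos (by omega)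
      rw [← hfin.cast_ncard_eq, h]
  refine ⟨fun n hn => ⟨?_, ?_⟩, ⟨?_, ?_⟩, ?_⟩
  · obtain ⟨D, i1, i2, p, h1, h2⟩ := exists_finite n hn
    exact ⟨D, i1, i2, p, h1, (key D p n hn).2 h2⟩
  · obtain ⟨X, i1, i2, h1, h2, h3, h4, h5, h6⟩ := exists_threefold n hn
    exact ⟨X, i1, i2, h1, h2, h3, h4, h5, fun D _ _ p hp hc => h6 D p hp ((key D p n hn).1 hc)⟩
  · obtain ⟨D, i1, i2, p, h1, h2⟩ := exists_infinite
    exact ⟨D, i1, i2, p, h1, fun z => (h2 z).encard_eq⟩
  · obtain ⟨X, i1, i2, h1, h2, h3, h4, h5, h6⟩ := exists_fourfold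
    exact ⟨X, i1, i2, h1, h2, h3, h4, h5, fun D _ _ p hp hc =>
      h6 D p hp fun z => Set.encard_eq_top_iff.1 (hc z)⟩
  · rintro D _ _ p ⟨h1, h2, h3, h4⟩
    obtain ⟨g, m, hg, hsurj, heq, hm⟩ := classify h3
    rcases Nat.eq_zero_or_pos m with h0 | h0
    · refine ⟨⊤, by simp, fun z => ?_⟩
      obtain ⟨d, hd⟩ : (p ⁻¹' {z}).Nonempty := ⟨g (secT 0 z), by
        change p (g (secT 0 z)) = z
        rw [hg, pT_secT]⟩
      rcases Set.infinite_or_finite (p ⁻¹' {z}) with h | h
      · exact h.encard_eq
      · exfalso
        have h5 := (Set.ncard_pos h).2 ⟨d, hd⟩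
        rw [hm z] at h5
        omega
    · exact ⟨m, by exact_mod_cast h0.ne', (key D p m h0).2 hm⟩

end Pool.Agent.Results.MP_c7085a_an.AllCoverings
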